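import Pool.Agent.H23.GB.Targets
import Pool.Agent.H27.GW.GF
import Pool.Agent.H54.GA.AP

/-!
# Module AG: arithmetic of the balls
-/

set_option autoImplicit false

open Finset Polynomial
open scoped Classical

namespace Pool.Agent.H42.GB

open Pool.Agent.H23.GW Pool.Agent.H23.GA Pool.Agent.H23.GB
open Pool.Agent.H54.GA (H H_eval H_odd H_one_pos)

noncomputable section

/-- the statement for all odd radii -/
theorem ag_odd (s : ℕ) (hs : Odd s) : ∃ C : ℕ, ∀ m p : ℕ, p.Prime → C ≤ p → p ∣ 2 * m + 1 →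
    p ∣ aa m s ∧ (aa m s).factorization p = (2 * m + 1).factorization p := by
  obtain ⟨n, hn⟩ := hs
  have hn' : s = 2 * n + 1 := hn
  set g0 := (H s).divX with hg0
  have hc0 : (H s).coeff 0 = 0 := H_odd s ⟨n, hn⟩
  have hX : X * g0 = H s := by
    have := X_mul_divX_add (H s)
    rw [hc0, C_0, add_zero] at this
    exact this
  have hc1 : 0 < g0.coeff 0 := by
    rw [hg0, coeff_divX, zero_add, hn']
    exact H_one_pos ⟨n, by ring⟩
  refine ⟨s + (g0.coeff 0).toNat + 1, ?_⟩
  intro m p hp hC hdvd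
  have h1 : (s.factorial : ℤ) * (aa m s : ℤ) = (2 * (m : ℤ) + 1) * g0.eval (2 * (m : ℤ) + 1) := by
    rw [← H_eval Pool.Agent.H27.GW.gf, ← hX, eval_mul, eval_X]
  set Gn : ℕ := (g0.eval (2 * (m : ℤ) + 1)).natAbs with hGn
  have h2 : s.factorial * aa m s = (2 * m + 1) * Gn := by
    have := congrArg Int.natAbs h1
    rw [Int.natAbs_mul, Int.natAbs_mul, Int.natAbs_natCast, Int.natAbs_natCast,
      show (2 * (m : ℤ) + 1).natAbs = 2 * m + 1 by omega] at this
    exact this
  have h3 : ¬ p ∣ Gn := by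
    intro h
    have h4 : (p : ℤ) ∣ g0.eval (2 * (m : ℤ) + 1) := Int.natCast_dvd.2 h
    have h5 : (p : ℤ) ∣ g0.eval (2 * (m : ℤ) + 1) - g0.eval 0 := by
      have h6 : (p : ℤ) ∣ 2 * (m : ℤ) + 1 - 0 := by
        rw [sub_zero]
        exact_mod_cast hdvd
      exact h6.trans (sub_dvd_eval_sub _ _ _)
    have h7 : (p : ℤ) ∣ g0.eval 0 := by
      have := dvd_sub h4 h5
      rwa [sub_sub_cancel] at this
    rw [← coeff_zero_eq_eval_zero] at h7
    have h8 := Int.le_of_dvd hc1 h7
    omega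
  have h4 : ¬ p ∣ s.factorial := by
    rw [Nat.Prime.dvd_factorial hp]
    omega
  have hG0 : Gn ≠ 0 := by
    intro h
    exact h3 (h ▸ dvd_zero p)
  have ha0 : aa m s ≠ 0 := by
    intro h
    rw [h, mul_zero] at h2
    rcases mul_eq_zero.1 h2.symm with h5 | h5
    · omega
    · exact hG0 h5
  have h5 : (s.factorial * aa m s).factorization p = ((2 * m + 1) * Gn).factorization p := by
    rw [h2]
  rw [Nat.factorization_mul (Nat.factorial_ne_zero s) ha0,
    Nat.factorization_mul (by omega) hG0, Finsupp.add_apply, Finsupp.add_apply,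
    Nat.factorization_eq_zero_of_not_dvd h4, Nat.factorization_eq_zero_of_not_dvd h3, zero_add,
    add_zero] at h5
  refine ⟨?_, h5⟩
  rw [← Nat.pow_one p, hp.pow_dvd_iff_le_factorization ha0, h5,
    ← hp.pow_dvd_iff_le_factorization (by omega), pow_one]
  exact hdvd

theorem ag : T_AG := by
  intro s hs
  refine ag_odd s ?_
  rcases hs with h | h
  · rw [h]; decide
  · rw [h]; decide

end

end Pool.Agent.H42.GB
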