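import Pool.Agent.H23.GB.Targets
import Pool.Agent.H41.GW.EX

/-!
# Module EG: the exponent of the group
-/

set_option autoImplicit false

open Finset
open scoped Classical

namespace Pool.Agent.H42.GB

open Pool.Agent.H23.GW Pool.Agent.H23.GA Pool.Agent.H23.GB
open Pool.Agent.H41.GW (SU unit_nsmul_ne_zero SU_zero r2_zero_le sum_r2 SU_eq sum_units_le
  le_divisors_mul_totient torsion_card)

section

variable {G : Type} [AddCommGroup G] [Fintype G]

theorem SU_le_two' (T : Finset G) (m : ℕ) (K κ : ℝ) (hT : TileA T m K κ) (g : G) (hg : g ≠ 0) :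
    SU T g ≤ 2 * Fintype.card (ZMod (Fintype.card G))ˣ := by
  unfold SU
  calc ∑ t : (ZMod (Fintype.card G))ˣ, (r2 T ((t : ZMod (Fintype.card G)).val • g) : ℝ)
      ≤ ∑ t : (ZMod (Fintype.card G))ˣ, (2 : ℝ) := by
        refine Finset.sum_le_sum fun t _ => ?_
        exact_mod_cast hT.r_le _ (unit_nsmul_ne_zero t g hg)
    _ = _ := by
        rw [Finset.sum_const, nsmul_eq_mul, Finset.card_univ]; ring

/-- the bound from the cyclic subgroup generated by `g` -/
theorem SU_le' (T : Finset G) (m : ℕ) (K κ : ℝ) (hK : 0 ≤ K) (hT : TileA T m K κ) (g : G) :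
    SU T g ≤ Fintype.card (ZMod (Fintype.card G))ˣ * ((addOrderOf g).divisors.card *
      ((2 * m + 1) ^ 2 / Fintype.card G + K * m / addOrderOf g)) := by
  have : NeZero (addOrderOf g) := ⟨(addOrderOf_pos g).ne'⟩
  have he : (0 : ℝ) < addOrderOf g := by exact_mod_cast addOrderOf_pos g
  have hφ : (0 : ℝ) < Nat.totient (addOrderOf g) := by
    exact_mod_cast Nat.totient_pos.mpr (addOrderOf_pos g)
  have hN : (0 : ℝ) < Fintype.card G := by exact_mod_cast Fintype.card_pos
  have h1 := SU_eq T g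
  have h2 := sum_units_le T g
  have h3 := hT.sb (AddSubgroup.zmultiples g)
  rw [Nat.card_zmultiples] at h3
  have h4 : (addOrderOf g : ℝ) ≤ (addOrderOf g).divisors.card * Nat.totient (addOrderOf g) := by
    exact_mod_cast le_divisors_mul_totient (addOrderOf g)
  set u : ℝ := ((Fintype.card (ZMod (Fintype.card G))ˣ : ℕ) : ℝ) with hu
  have hu0 : 0 ≤ u := by positivity
  set φ : ℝ := ((Nat.totient (addOrderOf g) : ℕ) : ℝ) with hφdef
  set e : ℝ := ((addOrderOf g : ℕ) : ℝ) with hedef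
  set d : ℝ := (((addOrderOf g).divisors.card : ℕ) : ℝ) with hd
  set N : ℝ := ((Fintype.card G : ℕ) : ℝ) with hNdef
  set M : ℝ := ((m : ℕ) : ℝ) with hMdef
  have hM0 : 0 ≤ M := by positivity
  have hB : 0 ≤ (2 * M + 1) ^ 2 / N + K * M / e := by positivity
  have h5 : φ * SU T g ≤ u * ((2 * M + 1) ^ 2 * e / N + K * M) := by
    rw [h1]
    gcongr
    exact h2.trans h3
  have h6 : (2 * M + 1) ^ 2 * e / N + K * M = e * ((2 * M + 1) ^ 2 / N + K * M / e) := by
    field_simp
  rw [h6] at h5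
  have h7 : φ * SU T g ≤ φ * (u * (d * ((2 * M + 1) ^ 2 / N + K * M / e))) := by
    calc φ * SU T g ≤ u * (e * ((2 * M + 1) ^ 2 / N + K * M / e)) := h5
      _ ≤ u * ((d * φ) * ((2 * M + 1) ^ 2 / N + K * M / e)) := by gcongr
      _ = _ := by ring
  exact le_of_mul_le_mul_left h7 hφ

/-- the elements of small order -/
theorem sum_small' (T : Finset G) (m : ℕ) (K κ : ℝ) (hT : TileA T m K κ)
    (E B : ℝ) (hB : E / AddMonoid.exponent G ≤ B) (hB0 : 0 ≤ (2 * m + 1) ^ 2 * B + K * m) :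
    ∑ g, (if (addOrderOf g : ℝ) ≤ E then (r2 T g : ℝ) else 0) ≤
      (AddMonoid.exponent G).divisors.card * ((2 * m + 1) ^ 2 * B + K * m) := by
  set n := AddMonoid.exponent G with hn
  have hnpos : 0 < n := by
    rw [hn, AddMonoid.exponent_pos]
    exact AddMonoid.ExponentExists.of_finite
  have hN : (0 : ℝ) < Fintype.card G := by exact_mod_cast Fintype.card_pos
  have hnR : (0 : ℝ) < n := by exact_mod_cast hnpos
  have h1 : ∀ e ∈ n.divisors.filter (fun e : ℕ => (e : ℝ) ≤ E),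
      ∑ h with h ∈ (nsmulAddMonoidHom (α := G) e).ker, (r2 T h : ℝ) ≤
        (2 * m + 1) ^ 2 * B + K * m := by
    intro e he
    rw [Finset.mem_filter, Nat.mem_divisors] at he
    have he0 : 0 < e := Nat.pos_of_dvd_of_pos he.1.1 hnpos
    have h5 := hT.sb (nsmulAddMonoidHom (α := G) e).ker
    refine le_trans (le_of_eq ?_) (h5.trans ?_)
    · congr!
    have h2 := torsion_card (G := G) e he0
    rw [← hn] at h2
    have h3 : (Nat.card (nsmulAddMonoidHom (α := G) e).ker : ℝ) / Fintype.card G ≤ B := by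
      rw [div_le_iff₀ hN]
      have h4 : (Nat.card (nsmulAddMonoidHom (α := G) e).ker : ℝ) * n ≤
          B * Fintype.card G * n := by
        calc (Nat.card (nsmulAddMonoidHom (α := G) e).ker : ℝ) * n ≤ Fintype.card G * e := h2
          _ ≤ Fintype.card G * E := by
              gcongr
              exact he.2
          _ = Fintype.card G * (E / n) * n := by field_simp
          _ ≤ Fintype.card G * B * n := by gcongr
          _ = _ := by ring
      exact le_of_mul_le_mul_right h4 hnR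
    rw [mul_div_assoc]
    gcongr
  calc ∑ g, (if (addOrderOf g : ℝ) ≤ E then (r2 T g : ℝ) else 0)
      ≤ ∑ g, ∑ e ∈ n.divisors.filter (fun e : ℕ => (e : ℝ) ≤ E),
          (if g ∈ (nsmulAddMonoidHom (α := G) e).ker then (r2 T g : ℝ) else 0) := by
        refine Finset.sum_le_sum fun g _ => ?_
        split_ifs with hg
        · have h2 : addOrderOf g ∈ n.divisors.filter (fun e : ℕ => (e : ℝ) ≤ E) := by
            rw [Finset.mem_filter, Nat.mem_divisors]
            exact ⟨⟨AddMonoid.addOrder_dvd_exponent g, hnpos.ne'⟩, hg⟩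
          have h3 : g ∈ (nsmulAddMonoidHom (α := G) (addOrderOf g)).ker := by
            rw [AddMonoidHom.mem_ker]
            exact addOrderOf_nsmul_eq_zero g
          have h4 := Finset.single_le_sum (f := fun e =>
            (if g ∈ (nsmulAddMonoidHom (α := G) e).ker then (r2 T g : ℝ) else 0))
            (fun e _ => by positivity) h2
          rw [if_pos h3] at h4
          exact h4
        · exact Finset.sum_nonneg fun e _ => by positivity
    _ = ∑ e ∈ n.divisors.filter (fun e : ℕ => (e : ℝ) ≤ E),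
          ∑ h with h ∈ (nsmulAddMonoidHom (α := G) e).ker, (r2 T h : ℝ) := by
        rw [Finset.sum_comm]
        refine Finset.sum_congr rfl fun e _ => ?_
        rw [Finset.sum_filter]
    _ ≤ ∑ e ∈ n.divisors.filter (fun e : ℕ => (e : ℝ) ≤ E), ((2 * m + 1) ^ 2 * B + K * m) :=
        Finset.sum_le_sum h1
    _ = (#(n.divisors.filter (fun e : ℕ => (e : ℝ) ≤ E)) : ℝ) * ((2 * m + 1) ^ 2 * B + K * m) := by
        rw [Finset.sum_const, nsmul_eq_mul]
    _ ≤ _ := by
        gcongr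
        exact Finset.filter_subset _ _

/-- splitting of the total sum -/
theorem total_le' (T : Finset G) (m : ℕ) (K κ : ℝ) (hK : 0 ≤ K) (hT : TileA T m K κ)
    (E B D : ℝ) (hE : 0 < E) (hB0 : 0 ≤ B) (hB : E / AddMonoid.exponent G ≤ B)
    (hD : ∀ e : ℕ, e ∣ Fintype.card G → (e.divisors.card : ℝ) ≤ D) :
    ∑ g, (r2 T g : ℝ) * SU T g ≤ Fintype.card (ZMod (Fintype.card G))ˣ *
      ((2 * m + 1) ^ 2 + 2 * (D * ((2 * m + 1) ^ 2 * B + K * m)) +
        D * ((2 * m + 1) ^ 2 / Fintype.card G + K * m / E) * (2 * m + 1) ^ 2) := by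
  set u : ℝ := ((Fintype.card (ZMod (Fintype.card G))ˣ : ℕ) : ℝ) with hu
  have hu0 : 0 ≤ u := by positivity
  have hN : (0 : ℝ) < Fintype.card G := by exact_mod_cast Fintype.card_pos
  have hD0 : 0 ≤ D := (by positivity : (0 : ℝ) ≤ ((1 : ℕ).divisors.card : ℝ)).trans
    (hD 1 (one_dvd _))
  set W : ℝ := D * ((2 * m + 1) ^ 2 / Fintype.card G + K * m / E) with hW
  have hW0 : 0 ≤ W := by positivity
  have h0 : (r2 T 0 : ℝ) ≤ 2 * m + 1 := by
    have := r2_zero_le T
    rw [hT.card] at this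
    exact_mod_cast this
  have hpt : ∀ g ∈ (univ : Finset G).erase 0, (r2 T g : ℝ) * SU T g ≤
      u * (2 * (if (addOrderOf g : ℝ) ≤ E then (r2 T g : ℝ) else 0) + W * r2 T g) := by
    intro g hg
    have hg0 : g ≠ 0 := Finset.ne_of_mem_erase hg
    split_ifs with h
    · calc (r2 T g : ℝ) * SU T g ≤ r2 T g * (2 * u) := by
            gcongr
            exact SU_le_two' T m K κ hT g hg0
        _ ≤ _ := by nlinarith [mul_nonneg hW0 (Nat.cast_nonneg (r2 T g) : (0 : ℝ) ≤ r2 T g)]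
    · push Not at h
      have h1 := SU_le' T m K κ hK hT g
      have h2 : SU T g ≤ u * W := by
        refine h1.trans ?_
        rw [hW]
        have h3 : K * (m : ℝ) / addOrderOf g ≤ K * m / E := by
          gcongr
        have h4 := hD (addOrderOf g) addOrderOf_dvd_card
        gcongr
      calc (r2 T g : ℝ) * SU T g ≤ r2 T g * (u * W) := by gcongr
        _ = _ := by ring
  have hsum := Finset.sum_le_sum hpt
  rw [← Finset.add_sum_erase univ _ (Finset.mem_univ (0 : G)), SU_zero]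
  have h1 : ∑ g ∈ (univ : Finset G).erase 0, u *
      (2 * (if (addOrderOf g : ℝ) ≤ E then (r2 T g : ℝ) else 0) + W * r2 T g) ≤
      u * (2 * (D * ((2 * m + 1) ^ 2 * B + K * m)) + W * (2 * m + 1) ^ 2) := by
    calc ∑ g ∈ (univ : Finset G).erase 0, u *
        (2 * (if (addOrderOf g : ℝ) ≤ E then (r2 T g : ℝ) else 0) + W * r2 T g) ≤
        ∑ g, u * (2 * (if (addOrderOf g : ℝ) ≤ E then (r2 T g : ℝ) else 0) + W * r2 T g) := by
          refine Finset.sum_le_sum_of_subset_of_nonneg (Finset.erase_subset _ _) ?_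
          intro g _ _
          positivity
      _ = u * (2 * ∑ g, (if (addOrderOf g : ℝ) ≤ E then (r2 T g : ℝ) else 0) +
            W * ∑ g, (r2 T g : ℝ)) := by
          rw [Finset.mul_sum, Finset.mul_sum, ← Finset.sum_add_distrib, Finset.mul_sum]
      _ ≤ _ := by
          have h2 := sum_small' T m K κ hT E B hB (by positivity)
          have h3 := hD _ (AddGroup.exponent_dvd_card (G := G))
          have h4 : ∑ g, (r2 T g : ℝ) = (2 * m + 1) ^ 2 := by
            rw [sum_r2, hT.card]; push_cast; ring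
          rw [h4]
          gcongr
          refine h2.trans ?_
          gcongr
  have h5 : (r2 T 0 : ℝ) * (u * r2 T 0) ≤ u * (2 * m + 1) ^ 2 := by
    have h6 : (r2 T 0 : ℝ) * r2 T 0 ≤ (2 * m + 1) * (2 * m + 1) := by
      gcongr
    nlinarith
  linarith

end

/-- (EG) the exponent of the group. -/
theorem eg : T_EG := by
  intro K κ δ₀ s hK hκ hδ₀
  obtain ⟨δ, hδ, hδ1, hδδ⟩ : ∃ δ : ℝ, 0 < δ ∧ δ ≤ 1 ∧ δ ≤ δ₀ :=
    ⟨min δ₀ 1, lt_min hδ₀ one_pos, min_le_right _ _, min_le_left _ _⟩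
  obtain ⟨k, hk⟩ := exists_nat_ge (4 * (s + 1) / δ)
  have hk12 : (4 : ℝ) ≤ k := by
    refine le_trans ?_ hk
    rw [le_div_iff₀ hδ]
    have : (0 : ℝ) ≤ s := by positivity
    nlinarith
  have hk0 : k ≠ 0 := by
    rintro rfl
    norm_num at hk12
  obtain ⟨C, hC, hdiv⟩ := Pool.Agent.H30.Vino.card_divisors_pow_le k
  have hC1 : (1 : ℝ) ≤ C := by exact_mod_cast hC
  have htend := (tendsto_rpow_atTop (y := δ / 4) (by positivity)).comp tendsto_natCast_atTop_atTop
  obtain ⟨m₂, hm₂⟩ := Filter.eventually_atTop.mp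
    (htend.eventually_gt_atTop (3 ^ s * (C : ℝ) * (99 + 11 * K) / (4 * (κ - 1))))
  refine ⟨max 1 m₂, ?_⟩
  intro m hm G _ _ T hT hmN hNm
  have hm1 : 1 ≤ m := (le_max_left _ _).trans hm
  have hm2 : m₂ ≤ m := (le_max_right _ _).trans hm
  by_contra hcon
  push Not at hcon
  have hy : 3 ^ s * (C : ℝ) * (99 + 11 * K) / (4 * (κ - 1)) < (m : ℝ) ^ (δ / 4) := hm₂ m hm2
  have hx1 : (1 : ℝ) ≤ m := by exact_mod_cast hm1
  have hx0 : (0 : ℝ) < m := by linarith
  set x : ℝ := (m : ℝ) with hxdef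
  set y : ℝ := x ^ (δ / 4) with hydef
  have hy0 : 0 < y := by positivity
  have hyy : y * y = x ^ (δ / 2) := by
    rw [hydef, ← Real.rpow_add hx0]; congr 1; ring
  have hyx : y * y ≤ x := by
    rw [hyy]
    calc x ^ (δ / 2) ≤ x ^ (1 : ℝ) := Real.rpow_le_rpow_of_exponent_le hx1 (by linarith)
      _ = x := Real.rpow_one x
  have hexp : x * (y * y) * (y * y) ≤ AddMonoid.exponent G := by
    refine le_trans ?_ hcon
    calc x * (y * y) * (y * y) = x ^ (1 + δ) := by
          rw [hyy, mul_assoc, ← Real.rpow_add hx0]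
          nth_rewrite 1 [← Real.rpow_one x]
          rw [← Real.rpow_add hx0]
          congr 1; ring
      _ ≤ x ^ (1 + δ₀) := Real.rpow_le_rpow_of_exponent_le hx1 (by linarith)
  have hN : (0 : ℝ) < Fintype.card G := by exact_mod_cast Fintype.card_pos
  have hNge' : x ^ 3 ≤ (Fintype.card G : ℝ) := by
    rw [hxdef]
    exact_mod_cast hmN
  have hsq : (2 * x + 1) ^ 2 ≤ 9 * x ^ 2 := by nlinarith
  have hsq' : 4 * x ^ 2 ≤ (2 * x + 1) ^ 2 := by nlinarith
  have hNle : (Fintype.card G : ℝ) ≤ 3 ^ s * x ^ s := by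
    have h1 : (Fintype.card G : ℝ) ≤ (2 * x + 1) ^ s := by
      rw [hxdef]
      exact_mod_cast hNm
    refine h1.trans ?_
    rw [← mul_pow]
    gcongr
    linarith
  have hNge : (2 * x + 1) ^ 2 / Fintype.card G ≤ 9 / x := by
    rw [div_le_div_iff₀ hN hx0]
    calc (2 * x + 1) ^ 2 * x ≤ 9 * x ^ 2 * x := by gcongr
      _ = 9 * x ^ 3 := by ring
      _ ≤ 9 * Fintype.card G := by gcongr
  set C3 : ℝ := 3 ^ s * (C : ℝ) with hC3
  have h3s : (1 : ℝ) ≤ 3 ^ s := one_le_pow₀ (by norm_num)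
  have hC31 : 1 ≤ C3 := by
    rw [hC3]
    nlinarith
  have hD : ∀ e : ℕ, e ∣ Fintype.card G → (e.divisors.card : ℝ) ≤ C3 * y := by
    intro e he
    have he0 : 0 < e := Nat.pos_of_dvd_of_pos he Fintype.card_pos
    have h1 : ((e.divisors.card : ℕ) : ℝ) ^ k ≤ C * e := by exact_mod_cast hdiv e he0
    have h2 : (e : ℝ) ≤ 3 ^ s * x ^ s := by
      refine le_trans ?_ hNle
      exact_mod_cast Nat.le_of_dvd Fintype.card_pos he
    have h3 : (C3 * y) ^ k ≥ C3 * x ^ s := by
      rw [mul_pow]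
      have h4 : C3 ^ k ≥ C3 := le_self_pow₀ hC31 hk0
      have h5 : y ^ k ≥ x ^ s := by
        rw [hydef, ← Real.rpow_natCast, ← Real.rpow_mul hx0.le, ← Real.rpow_natCast x s]
        apply Real.rpow_le_rpow_of_exponent_le hx1
        have h6 : 4 * (s + 1) / δ * δ = 4 * ((s : ℝ) + 1) := by field_simp
        have h7 : 4 * (s + 1) / δ * δ ≤ k * δ := by gcongr
        linarith
      have h8 : 0 ≤ x ^ s := by positivity
      calc C3 * x ^ s ≤ C3 ^ k * x ^ s := by gcongr
        _ ≤ C3 ^ k * y ^ k := by gcongr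
    have h9 : ((e.divisors.card : ℕ) : ℝ) ^ k ≤ (C3 * y) ^ k := by
      calc ((e.divisors.card : ℕ) : ℝ) ^ k ≤ C * e := h1
        _ ≤ C * (3 ^ s * x ^ s) := by gcongr
        _ = C3 * x ^ s := by rw [hC3]; ring
        _ ≤ _ := h3
    exact le_of_pow_le_pow_left₀ hk0 (by positivity) h9
  have hexp0 : (0 : ℝ) < AddMonoid.exponent G := lt_of_lt_of_le (by positivity) hexp
  have hB : x * (y * y) / AddMonoid.exponent G ≤ 1 / (y * y) := by
    rw [div_le_div_iff₀ hexp0 (by positivity)]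
    linarith
  have htot := total_le' T m K κ hK.le hT (x * (y * y)) (1 / (y * y)) (C3 * y)
    (by positivity) (by positivity) hB hD
  have hma := hT.ma ⊤
  set u : ℝ := ((Fintype.card (ZMod (Fintype.card G))ˣ : ℕ) : ℝ) with hu
  have hu0 : 0 < u := by
    rw [hu]
    exact_mod_cast Fintype.card_pos
  have hcardtop : (Nat.card (⊤ : Subgroup (ZMod (Fintype.card G))ˣ) : ℝ) = u := by
    rw [Subgroup.card_top, Nat.card_eq_fintype_card]
  have hsum : ∑ t with t ∈ (⊤ : Subgroup (ZMod (Fintype.card G))ˣ),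
      ∑ g, (r2 T g : ℝ) * r2 T ((t : ZMod (Fintype.card G)).val • g) =
      ∑ g, (r2 T g : ℝ) * SU T g := by
    simp only [Subgroup.mem_top, Finset.filter_true]
    rw [Finset.sum_comm]
    refine Finset.sum_congr rfl fun g _ => ?_
    rw [SU, Finset.mul_sum]
  rw [hcardtop, hsum, ← hxdef] at hma
  rw [← hxdef] at htot
  have hfin : u * (κ * (2 * x + 1) ^ 2) ≤ u * ((2 * x + 1) ^ 2 +
      2 * (C3 * y * ((2 * x + 1) ^ 2 * (1 / (y * y)) + K * x)) +
      C3 * y * ((2 * x + 1) ^ 2 / Fintype.card G + K * x / (x * (y * y))) *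
        (2 * x + 1) ^ 2) := by
    refine le_trans (le_of_eq ?_) (hma.trans htot)
    ring
  have hfin2 := le_of_mul_le_mul_left hfin hu0
  have h1 : K * x / (x * (y * y)) = K / (y * y) := by field_simp
  rw [h1] at hfin2
  have hC0 : (0 : ℝ) < C3 := by linarith
  have h2 : (κ - 1) * (4 * x ^ 2) ≤
      2 * (C3 * y * (9 * x ^ 2 * (1 / (y * y)) + K * x)) +
      C3 * y * (9 / x + K / (y * y)) * (9 * x ^ 2) := by
    have h20 : (κ - 1) * (4 * x ^ 2) ≤ (κ - 1) * (2 * x + 1) ^ 2 := by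
      apply mul_le_mul_of_nonneg_left hsq' (by linarith)
    have h21 : 2 * (C3 * y * ((2 * x + 1) ^ 2 * (1 / (y * y)) + K * x)) +
      C3 * y * ((2 * x + 1) ^ 2 / Fintype.card G + K / (y * y)) *
        (2 * x + 1) ^ 2 ≤ 2 * (C3 * y * (9 * x ^ 2 * (1 / (y * y)) + K * x)) +
      C3 * y * (9 / x + K / (y * y)) * (9 * x ^ 2) := by
      gcongr
    linarith
  have h3 : 2 * (C3 * y * (9 * x ^ 2 * (1 / (y * y)) + K * x)) +
      C3 * y * (9 / x + K / (y * y)) * (9 * x ^ 2) =
      C3 * (18 + 9 * K) * (x ^ 2 / y) + C3 * (2 * K + 81) * (x * y) := by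
    field_simp
    ring
  rw [h3] at h2
  have h4 : x * y ≤ x ^ 2 / y := by
    rw [le_div_iff₀ hy0]
    nlinarith
  have h5 : (κ - 1) * (4 * x ^ 2) ≤ C3 * (99 + 11 * K) * (x ^ 2 / y) := by
    have h50 : C3 * (2 * K + 81) * (x * y) ≤ C3 * (2 * K + 81) * (x ^ 2 / y) := by gcongr
    linarith
  have h6 : x ^ 2 / y * y = x ^ 2 := by field_simp
  have h7 : 0 < x ^ 2 / y := by positivity
  have h8 : (κ - 1) * 4 * y ≤ C3 * (99 + 11 * K) := by
    have h80 : (x ^ 2 / y) * ((κ - 1) * 4 * y) ≤ (x ^ 2 / y) * (C3 * (99 + 11 * K)) := by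
      calc (x ^ 2 / y) * ((κ - 1) * 4 * y) = (κ - 1) * (4 * (x ^ 2 / y * y)) := by ring
        _ = (κ - 1) * (4 * x ^ 2) := by rw [h6]
        _ ≤ _ := h5
        _ = _ := by ring
    exact le_of_mul_le_mul_left h80 h7
  rw [div_lt_iff₀ (by linarith)] at hy
  linarith

end Pool.Agent.H42.GB
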