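import Pool.Agent.H23.GB.Targets
import Pool.Agent.H24.GW.GP

/-!
# Module GG: the primary components of the group
-/

set_option autoImplicit false

open Finset
open scoped Classical

namespace Pool.Agent.H42.GB

open Pool.Agent.H23.GW Pool.Agent.H23.GA Pool.Agent.H23.GB
open Pool.Agent.H24.GW (card_ker_dvd card_tors_le mem_ker_iff sum_r2 r2_zero_le sum_one)

/-- the numerical end of the proof -/
theorem gg_arith (q P m K κ : ℝ) (hK : 0 < K) (hκ : 1 < κ) (hq : 8 ≤ q * (κ - 1)) (hq0 : 1 ≤ q)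
    (hP : q ≤ P) (hm : 2 * K ≤ (κ - 1) * m) (hm0 : 0 < m)
    (hMA : q * (κ * (2 * m + 1) ^ 2) ≤ q * ((2 * m + 1) ^ 2 + 2 * ((2 * m + 1) ^ 2 / P + K * m)) +
      (2 * (2 * m + 1) ^ 2 + (P - 1) * (K * m))) : q * ((κ - 1) * m) ≤ P * K := by
  have hP0 : 0 < P := by linarith
  set X : ℝ := (2 * m + 1) ^ 2 with hX
  have hX4 : 4 * m ^ 2 ≤ X := by
    rw [hX]
    nlinarith
  have hX0 : 0 < X := by positivity
  have e1 : q * (X / P) ≤ X := by
    rw [mul_div_assoc', div_le_iff₀ hP0]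
    nlinarith
  have e2 : q * (κ - 1) * X ≤ 4 * X + 2 * (q * (K * m)) + P * (K * m) := by
    have : 0 ≤ K * m := by positivity
    nlinarith
  have e3 : q * (κ - 1) * X / 2 ≤ 2 * (q * (K * m)) + P * (K * m) := by
    have : 4 * X ≤ q * (κ - 1) * X / 2 := by nlinarith
    linarith
  have e4 : 2 * (q * (κ - 1) * m ^ 2) ≤ q * (κ - 1) * X / 2 := by
    have : 0 ≤ q * (κ - 1) := by linarith
    nlinarith
  have e5 : 2 * (q * (K * m)) ≤ q * (κ - 1) * m ^ 2 := by
    have : q * m * (2 * K) ≤ q * m * ((κ - 1) * m) := by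
      apply mul_le_mul_of_nonneg_left hm (by positivity)
    nlinarith
  have e6 : m * (q * ((κ - 1) * m)) ≤ m * (P * K) := by nlinarith
  exact le_of_mul_le_mul_left e6 hm0

theorem gg : T_GG := by
  intro K κ hK hκ
  obtain ⟨C₁, hC₁⟩ := exists_nat_ge (8 / (κ - 1))
  obtain ⟨C₂, hC₂⟩ := exists_nat_ge (2 * K / (κ - 1))
  have hκ0 : 0 < κ - 1 := by linarith
  refine ⟨C₁ + C₂ + 2, C₂ + 1, fun m hm G _ _ T hT p hp hpN hpC => ?_⟩
  have : Fact p.Prime := ⟨hp⟩
  have hNZ : NeZero (Fintype.card G) := ⟨Fintype.card_ne_zero⟩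
  have hN0 : Fintype.card G ≠ 0 := Fintype.card_ne_zero
  set v := (Fintype.card G).factorization p with hv
  have hv0 : v ≠ 0 := (hp.factorization_pos_of_dvd hN0 hpN).ne'
  obtain ⟨b, hb⟩ : ∃ b, b = Fintype.card G / p ^ v := ⟨_, rfl⟩
  have hN : Fintype.card G = p ^ v * b := by
    rw [hb]; exact (Nat.ordProj_mul_ordCompl_eq_self _ _).symm
  have hpb : Nat.Coprime p b := by
    rw [hb]; exact Nat.coprime_ordCompl hp hN0
  have hbN : b ∣ Fintype.card G := by rw [hN]; exact dvd_mul_left _ _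
  have hb0 : 0 < b := Nat.pos_of_dvd_of_pos hbN (Nat.pos_of_ne_zero hN0)
  obtain ⟨Γ, hΓ⟩ : ∃ Γ : Subgroup (ZMod (Fintype.card G))ˣ, Γ = (ZMod.unitsMap hbN).ker := ⟨_, rfl⟩
  have h1 := hT.ma Γ
  obtain ⟨L, hL⟩ : ∃ L : ℕ, L = Nat.card Γ := ⟨_, rfl⟩
  rw [← hL] at h1
  have hL0 : 0 < L := by rw [hL]; exact Nat.card_pos
  have hr1 : ∀ g : G, g ≠ 0 → r2 T g ≤ 2 := hT.r_le
  have hcardT : #T = 2 * m + 1 := hT.card
  -- elements killed by `b`
  have hA : ∀ g : G, b • g = 0 → ∀ t : (ZMod (Fintype.card G))ˣ, t ∈ Γ →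
      (t : ZMod (Fintype.card G)).val • g = g := by
    intro g hg t ht
    rw [hΓ, mem_ker_iff] at ht
    have := (nsmul_eq_nsmul_iff_modEq (x := g)).2
      (ht.of_dvd (addOrderOf_dvd_of_nsmul_eq_zero hg))
    rw [one_nsmul] at this
    exact this
  have hco : Nat.Coprime (p ^ v) b := Nat.Coprime.pow_left _ hpb
  -- the sum, in natural numbers
  have h2 : (p - 1) * ∑ t with t ∈ Γ, ∑ g, r2 T g * r2 T ((t : ZMod (Fintype.card G)).val • g) ≤
      L * ((p - 1) * (∑ g with b • g = 0, r2 T g ^ 2) +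
        ∑ g with ¬ b • g = 0, r2 T g * ∑ d : G with (p ^ v) • d = 0, r2 T (g + d)) := by
    rw [Finset.sum_comm, ← Finset.sum_filter_add_sum_filter_not univ (fun g : G => b • g = 0),
      mul_add, mul_add]
    apply Nat.add_le_add
    · have : ∑ g with b • g = 0, ∑ t with t ∈ Γ,
          r2 T g * r2 T ((t : ZMod (Fintype.card G)).val • g) =
          ∑ g with b • g = 0, L * r2 T g ^ 2 := by
        apply Finset.sum_congr rfl
        intro g hg
        simp only [mem_filter, mem_univ, true_and] at hg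
        have : ∀ t ∈ ({t | t ∈ Γ} : Finset (ZMod (Fintype.card G))ˣ),
            r2 T g * r2 T ((t : ZMod (Fintype.card G)).val • g) = r2 T g ^ 2 := by
          intro t ht
          rw [hA g hg t (by simpa using ht), sq]
        rw [Finset.sum_congr rfl this, Finset.sum_const, smul_eq_mul, hL,
          Nat.card_eq_fintype_card, Fintype.card_subtype]
      rw [this, ← Finset.mul_sum]
      exact le_of_eq (by ring)
    · rw [Finset.mul_sum, Finset.mul_sum]
      apply Finset.sum_le_sum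
      intro g hg
      simp only [mem_filter, mem_univ, true_and] at hg
      rw [← Finset.mul_sum]
      have := sum_one T hp hv0 hN hpb hbN Γ hΓ g hg
      rw [← hL] at this
      calc (p - 1) * (r2 T g * ∑ t with t ∈ Γ, r2 T ((t : ZMod (Fintype.card G)).val • g))
          = r2 T g * ((p - 1) * ∑ t with t ∈ Γ, r2 T ((t : ZMod (Fintype.card G)).val • g)) := by
            ring
        _ ≤ r2 T g * (L * ∑ d : G with (p ^ v) • d = 0, r2 T (g + d)) :=
            Nat.mul_le_mul_left _ this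
        _ = _ := by ring
  -- first part
  have h3 : ∑ g with b • g = 0, r2 T g ^ 2 ≤ (2 * m + 1) ^ 2 + 2 * ∑ g with b • g = 0, r2 T g := by
    have hpt : ∀ g ∈ ({g | b • g = 0} : Finset G), r2 T g ^ 2 ≤
        (if g = 0 then (2 * m + 1) ^ 2 else 0) + 2 * r2 T g := by
      intro g _
      by_cases h0 : g = 0
      · rw [if_pos h0, h0]
        have := r2_zero_le T
        rw [hcardT] at this
        nlinarith [Nat.pow_le_pow_left this 2]
      · rw [if_neg h0]
        have := hr1 g h0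
        nlinarith
    refine (Finset.sum_le_sum hpt).trans ?_
    rw [Finset.sum_add_distrib, ← Finset.mul_sum, Finset.sum_ite_eq']
    apply Nat.add_le_add_right
    split_ifs <;> simp
  have hP1 : 1 ≤ p ^ v := Nat.one_le_pow _ _ hp.pos
  -- second part
  have h4 : ∑ g with ¬ b • g = 0, (r2 T g : ℝ) * ∑ d : G with (p ^ v) • d = 0,
      (r2 T (g + d) : ℝ) ≤ 2 * (2 * (m : ℝ) + 1) ^ 2 + (((p ^ v : ℕ) : ℝ) - 1) * (K * m) := by
    have e1 : ∑ g with ¬ b • g = 0, (r2 T g : ℝ) * ∑ d : G with (p ^ v) • d = 0,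
        (r2 T (g + d) : ℝ) =
        ∑ d : G with (p ^ v) • d = 0, ∑ g with ¬ b • g = 0, (r2 T g : ℝ) * r2 T (g + d) := by
      rw [Finset.sum_comm]
      apply Finset.sum_congr rfl
      intro g _
      rw [Finset.mul_sum]
    rw [e1]
    have e2 : (0 : G) ∈ ({d | (p ^ v) • d = 0} : Finset G) := by simp
    rw [← Finset.add_sum_erase _ _ e2]
    apply add_le_add
    · have : ∀ g ∈ ({g | ¬ b • g = 0} : Finset G), (r2 T g : ℝ) * r2 T (g + 0) ≤
          2 * (r2 T g : ℝ) := by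
        intro g hg
        simp only [mem_filter, mem_univ, true_and] at hg
        have h0 : g ≠ 0 := by
          rintro rfl
          exact hg (nsmul_zero _)
        rw [add_zero]
        have h00 : (r2 T g : ℝ) ≤ 2 := by exact_mod_cast hr1 g h0
        have h01 : (0 : ℝ) ≤ r2 T g := Nat.cast_nonneg _
        nlinarith
      refine (Finset.sum_le_sum this).trans ?_
      rw [← Finset.mul_sum]
      apply mul_le_mul_of_nonneg_left _ (by norm_num)
      have e3 : ∑ g ∈ ({g | ¬ b • g = 0} : Finset G), r2 T g ≤ (2 * m + 1) ^ 2 := by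
        rw [← hcardT, ← sum_r2]
        exact Finset.sum_le_sum_of_subset (Finset.subset_univ _)
      exact_mod_cast e3
    · have hc : #(({d | (p ^ v) • d = 0} : Finset G).erase 0) ≤ p ^ v - 1 := by
        rw [Finset.card_erase_of_mem e2]
        apply Nat.sub_le_sub_right
        exact card_tors_le hco.symm (by rw [hN, mul_comm]) (pow_pos hp.pos _)
      have : ∀ d ∈ (({d | (p ^ v) • d = 0} : Finset G).erase 0),
          ∑ g with ¬ b • g = 0, (r2 T g : ℝ) * r2 T (g + d) ≤ K * m := by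
        intro d hd
        rw [mem_erase] at hd
        exact (Finset.sum_le_sum_of_subset_of_nonneg (Finset.subset_univ _)
          (fun _ _ _ => by positivity)).trans (hT.corr d hd.1)
      refine (Finset.sum_le_sum this).trans ?_
      rw [Finset.sum_const, nsmul_eq_mul]
      apply mul_le_mul_of_nonneg_right _ (by positivity)
      have hc' : ((#(({d | (p ^ v) • d = 0} : Finset G).erase 0) : ℕ) : ℝ) ≤
          ((p ^ v - 1 : ℕ) : ℝ) := by exact_mod_cast hc
      rw [Nat.cast_sub hP1, Nat.cast_one] at hc'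
      exact hc'
  -- the subgroup
  have h5 : ∑ g with b • g = 0, (r2 T g : ℝ) ≤ (2 * (m : ℝ) + 1) ^ 2 / (p ^ v : ℕ) + K * m := by
    obtain ⟨S, hS⟩ : ∃ S : AddSubgroup G, S = (nsmulAddMonoidHom b : G →+ G).ker := ⟨_, rfl⟩
    have e := hT.sb S
    have e1 : ∑ h with h ∈ S, (r2 T h : ℝ) = ∑ g with b • g = 0, (r2 T g : ℝ) := by
      congr 1
      ext g
      simp [hS, AddMonoidHom.mem_ker]
    rw [e1, hS] at e
    refine e.trans ?_
    have e2 : (Nat.card (nsmulAddMonoidHom b : G →+ G).ker : ℝ) ≤ b := by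
      exact_mod_cast Nat.le_of_dvd hb0 (card_ker_dvd hco hN)
    have hb0' : (0 : ℝ) < b := by exact_mod_cast hb0
    have hP0' : (0 : ℝ) < (p ^ v : ℕ) := by exact_mod_cast pow_pos hp.pos _
    have hNr : (Fintype.card G : ℝ) = (p ^ v : ℕ) * b := by exact_mod_cast hN
    have e3 : (2 * (m : ℝ) + 1) ^ 2 * Nat.card (nsmulAddMonoidHom b : G →+ G).ker /
        Fintype.card G ≤ (2 * (m : ℝ) + 1) ^ 2 / (p ^ v : ℕ) := by
      rw [hNr, div_le_div_iff₀ (by positivity) hP0']
      have := mul_le_mul_of_nonneg_left e2 (show (0 : ℝ) ≤ (2 * m + 1) ^ 2 * (p ^ v : ℕ) by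
        positivity)
      nlinarith
    linarith
  -- conclusion
  have hq : ((p - 1 : ℕ) : ℝ) = (p : ℝ) - 1 := by
    rw [Nat.cast_sub hp.one_lt.le, Nat.cast_one]
  obtain ⟨P, hP⟩ : ∃ P : ℕ, P = p ^ v := ⟨_, rfl⟩
  rw [← hP] at h4 h5 hP1 ⊢
  have hpP : p ≤ P := by
    rw [hP]
    exact Nat.le_self_pow hv0 p
  have hpPr : (p : ℝ) ≤ P := by exact_mod_cast hpP
  have hpr : (C₁ : ℝ) + C₂ + 2 ≤ p := by exact_mod_cast hpC
  have hC₁0 : (0 : ℝ) ≤ C₁ := Nat.cast_nonneg _
  have hC₂0 : (0 : ℝ) ≤ C₂ := Nat.cast_nonneg _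
  have hmr : (C₂ : ℝ) + 1 ≤ m := by exact_mod_cast hm
  have hfin := gg_arith ((p : ℝ) - 1) P m K κ hK hκ ?_ (by linarith) (by linarith) ?_
    (by linarith) ?_
  · -- p m ≤ C P
    have hCP : 2 * K ≤ (κ - 1) * C₂ := by
      rw [div_le_iff₀ hκ0] at hC₂
      linarith
    have hp2 : (2 : ℝ) ≤ p := by linarith
    have hm0 : (0 : ℝ) < m := by linarith
    have hP0 : (0 : ℝ) < P := by linarith
    have e1 : (κ - 1) * (p * m) ≤ 2 * (P * K) := by
      have : (p : ℝ) ≤ 2 * (p - 1) := by linarith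
      have e2 : (κ - 1) * (p * m) ≤ (κ - 1) * (2 * (p - 1) * m) := by gcongr
      linarith
    have e3 : (κ - 1) * (p * m) ≤ (κ - 1) * (C₂ * P) := by
      have : P * (2 * K) ≤ P * ((κ - 1) * C₂) := by gcongr
      linarith
    have e4 : (p : ℝ) * m ≤ C₂ * P := le_of_mul_le_mul_left e3 hκ0
    have e5 : (p : ℝ) * m ≤ ((C₁ + C₂ + 2 : ℕ) : ℝ) * P := by
      push_cast
      nlinarith
    exact_mod_cast e5
  · rw [div_le_iff₀ hκ0] at hC₁
    nlinarith
  · rw [div_le_iff₀ hκ0] at hC₂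
    nlinarith
  · -- main inequality
    have h2' : ((p : ℝ) - 1) * ∑ t with t ∈ Γ, ∑ g, (r2 T g : ℝ) *
        r2 T ((t : ZMod (Fintype.card G)).val • g) ≤
        L * (((p : ℝ) - 1) * (∑ g with b • g = 0, (r2 T g : ℝ) ^ 2) +
        ∑ g with ¬ b • g = 0, (r2 T g : ℝ) * ∑ d : G with (p ^ v) • d = 0, (r2 T (g + d) : ℝ)) := by
      rw [← hq]
      exact_mod_cast h2
    have h3' : ∑ g with b • g = 0, (r2 T g : ℝ) ^ 2 ≤
        (2 * (m : ℝ) + 1) ^ 2 + 2 * ∑ g with b • g = 0, (r2 T g : ℝ) := by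
      exact_mod_cast h3
    have hp1 : (0 : ℝ) ≤ (p : ℝ) - 1 := by linarith
    have hL0' : (0 : ℝ) < L := by exact_mod_cast hL0
    have h6 := mul_le_mul_of_nonneg_left h1 hp1
    have h7 := h6.trans h2'
    have h8 : (L : ℝ) * (((p : ℝ) - 1) * (κ * (2 * m + 1) ^ 2)) ≤
        L * (((p : ℝ) - 1) * ((2 * (m : ℝ) + 1) ^ 2 +
          2 * ((2 * (m : ℝ) + 1) ^ 2 / P + K * m)) +
          (2 * (2 * (m : ℝ) + 1) ^ 2 + ((P : ℝ) - 1) * (K * m))) := by
      calc (L : ℝ) * (((p : ℝ) - 1) * (κ * (2 * m + 1) ^ 2))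
          = ((p : ℝ) - 1) * (κ * (2 * m + 1) ^ 2 * L) := by ring
        _ ≤ _ := h7
        _ ≤ _ := by
          apply mul_le_mul_of_nonneg_left _ hL0'.le
          rw [← hP]
          apply add_le_add _ h4
          apply mul_le_mul_of_nonneg_left _ hp1
          linarith
    exact le_of_mul_le_mul_left h8 hL0'

end Pool.Agent.H42.GB
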