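import Pool.Agent.H23.GB.Targets
import Pool.Agent.H81.GW.SU

/-!
# Module SG: the pairs with sum in a subgroup
-/

set_option autoImplicit false

open Finset Pool.Agent.H23.GW Pool.Agent.H23.GB
open scoped Classical

namespace Pool.Agent.H42.GB

noncomputable section

theorem sg : T_SG := by
  intro G _ _ T m K hK0 hneg hcard hch H
  let _ : Fintype (G ⧸ H) := Fintype.ofFinite _
  set π : G →+ G ⧸ H := QuotientAddGroup.mk' H with hπ
  have key : ((∑ ψ : AddChar (G ⧸ H) ℂ, ‖V T (ψ.compAddMonoidHom π)‖ ^ 2 : ℝ) : ℂ) =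
      (((Fintype.card (G ⧸ H) : ℝ) * ∑ h with h ∈ H, (r2 T h : ℝ) : ℝ) : ℂ) := by
    rw [Complex.ofReal_sum]
    have h1 : ∀ ψ : AddChar (G ⧸ H) ℂ, ((‖V T (ψ.compAddMonoidHom π)‖ ^ 2 : ℝ) : ℂ) =
        ∑ g, (r2 T g : ℂ) * ψ (π g) := fun ψ => by
      rw [Pool.Agent.H81.GW.norm_sq_eq (Pool.Agent.H81.GW.V_im T hneg _),
        Pool.Agent.H81.GW.V_sq]
      rfl
    simp_rw [h1]
    rw [sum_comm]
    simp_rw [← mul_sum, AddChar.sum_apply_eq_ite]
    push_cast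
    rw [mul_sum, sum_filter]
    apply sum_congr rfl
    intro g _
    have : π g = 0 ↔ g ∈ H := QuotientAddGroup.eq_zero_iff g
    by_cases hg : g ∈ H
    · rw [if_pos (this.2 hg), if_pos hg, mul_comm]
    · rw [if_neg (fun h => hg (this.1 h)), if_neg hg, mul_zero]
  have key2 : ∑ ψ : AddChar (G ⧸ H) ℂ, ‖V T (ψ.compAddMonoidHom π)‖ ^ 2 =
      (Fintype.card (G ⧸ H) : ℝ) * ∑ h with h ∈ H, (r2 T h : ℝ) := by exact_mod_cast key
  have hm0 : (0 : ℝ) ≤ m := Nat.cast_nonneg m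
  have h0 : ‖V T ((0 : AddChar (G ⧸ H) ℂ).compAddMonoidHom π)‖ ^ 2 = (2 * m + 1) ^ 2 := by
    have : V T ((0 : AddChar (G ⧸ H) ℂ).compAddMonoidHom π) = ((2 * m + 1 : ℝ) : ℂ) := by
      unfold V
      have : ∀ x ∈ T, ((0 : AddChar (G ⧸ H) ℂ).compAddMonoidHom π) x = 1 := fun x _ => rfl
      rw [sum_congr rfl this, sum_const, hcard]
      push_cast
      simp
    rw [this, Complex.norm_real, Real.norm_eq_abs, sq_abs]
  have hne : ∀ ψ : AddChar (G ⧸ H) ℂ, ψ ≠ 0 → ‖V T (ψ.compAddMonoidHom π)‖ ^ 2 ≤ K ^ 2 * m := by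
    intro ψ hψ
    have hne0 : ψ.compAddMonoidHom π ≠ 0 := by
      intro h
      apply hψ
      ext q
      obtain ⟨g, rfl⟩ := QuotientAddGroup.mk'_surjective H q
      have := DFunLike.congr_fun h g
      exact this
    have h1 := hch _ hne0
    calc ‖V T (ψ.compAddMonoidHom π)‖ ^ 2 ≤ (K * √m) ^ 2 := by gcongr
      _ = K ^ 2 * m := by rw [mul_pow, Real.sq_sqrt hm0]
  have hle : ∑ ψ : AddChar (G ⧸ H) ℂ, ‖V T (ψ.compAddMonoidHom π)‖ ^ 2 ≤
      (2 * m + 1) ^ 2 + Fintype.card (G ⧸ H) * (K ^ 2 * m) := by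
    rw [← add_sum_erase _ _ (mem_univ (0 : AddChar (G ⧸ H) ℂ)), h0]
    gcongr
    calc ∑ ψ ∈ univ.erase (0 : AddChar (G ⧸ H) ℂ), ‖V T (ψ.compAddMonoidHom π)‖ ^ 2
        ≤ ∑ ψ ∈ univ.erase (0 : AddChar (G ⧸ H) ℂ), (K ^ 2 * m : ℝ) :=
          sum_le_sum fun ψ hψ => hne ψ (ne_of_mem_erase hψ)
      _ ≤ ∑ ψ : AddChar (G ⧸ H) ℂ, (K ^ 2 * m : ℝ) :=
          sum_le_sum_of_subset_of_nonneg (erase_subset _ _) fun _ _ _ => by positivity
      _ = Fintype.card (G ⧸ H) * (K ^ 2 * m) := by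
          rw [sum_const, card_univ, AddChar.card_eq, nsmul_eq_mul]
  rw [key2] at hle
  have hQ : (0 : ℝ) < Fintype.card (G ⧸ H) := by exact_mod_cast Fintype.card_pos
  have hGK : (Fintype.card G : ℝ) = Fintype.card (G ⧸ H) * Nat.card H := by
    have := AddSubgroup.card_eq_card_quotient_mul_card_addSubgroup H
    rw [Nat.card_eq_fintype_card, Nat.card_eq_fintype_card (α := G ⧸ H)] at this
    exact_mod_cast this
  have hK : (0 : ℝ) < Nat.card H := by exact_mod_cast Nat.card_pos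
  have e : (2 * m + 1 : ℝ) ^ 2 * Nat.card H / Fintype.card G = (2 * m + 1) ^ 2 / Fintype.card (G ⧸ H) := by
    rw [hGK]
    field_simp
  rw [e]
  have : ∑ h with h ∈ H, (r2 T h : ℝ) ≤
      ((2 * m + 1) ^ 2 + Fintype.card (G ⧸ H) * (K ^ 2 * m)) / Fintype.card (G ⧸ H) := by
    rw [le_div_iff₀ hQ, mul_comm]
    exact hle
  refine this.trans (le_of_eq ?_)
  field_simp

end

end Pool.Agent.H42.GB
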