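import Pool.Agent.H23.GB.Targets
import Pool.Agent.H81.GW.SU
import Pool.Agent.H27.GW.TI
import Pool.Agent.H27.GW.GF
import Pool.Agent.H54.GA.RD

/-!
# Module T1: the tile of a perfect spanning set
-/

set_option autoImplicit false

open Finset Polynomial
open scoped Classical

namespace Pool.Agent.H42.GB

open Pool.Agent.H23.GW Pool.Agent.H23.GA Pool.Agent.H23.GB
open Pool.Agent.H27.GW (vec vec_inj vec_norm ev_vec_none ev_vec_some sgn abs_le_iff_mem_ball)
open Pool.Agent.H54.GA.RD (ev_bij card_eq BP_zero BP_succ)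

noncomputable section

variable {G : Type} [AddCommGroup G] [Fintype G] {A : Finset G} {s : ℕ}

set_option linter.unusedSectionVars false

theorem ev_eq (A : Finset G) (c : A → ℤ) : Pool.Agent.H54.GA.RD.ev A c =
    Pool.Agent.H27.GW.ev A c := rfl

theorem ev_inj' (hA : PerfectSpanning A s) {c d : A → ℤ} (hc : ∑ i, |c i| ≤ (s : ℤ))
    (hd : ∑ i, |d i| ≤ (s : ℤ))
    (h : Pool.Agent.H27.GW.ev A c = Pool.Agent.H27.GW.ev A d) : c = d :=
  (hA (Pool.Agent.H27.GW.ev A d)).unique ⟨hc, h⟩ ⟨hd, rfl⟩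

theorem vec_abs (hs : 1 ≤ s) (w : Option (A × Bool)) : ∑ i, |vec w i| ≤ (s : ℤ) := by
  have h1 := vec_norm w
  have h0 : ∑ i, |vec w i| = ((∑ i, (vec w i).natAbs : ℕ) : ℤ) := by
    rw [Nat.cast_sum]
    exact Finset.sum_congr rfl fun i _ => by simp
  rw [h0]
  exact_mod_cast h1.trans hs

theorem tile_eq (A : Finset G) : tile A =
    Finset.univ.image fun w : Option (A × Bool) => Pool.Agent.H27.GW.ev A (vec w) := by
  ext x
  unfold tile
  rw [mem_insert, mem_union, mem_image, mem_image]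
  constructor
  · rintro (h | h | ⟨a, ha, h⟩)
    · exact ⟨none, mem_univ _, by rw [ev_vec_none, h]⟩
    · refine ⟨some (⟨x, h⟩, true), mem_univ _, ?_⟩
      rw [ev_vec_some]
      simp [sgn]
    · refine ⟨some (⟨a, ha⟩, false), mem_univ _, ?_⟩
      rw [ev_vec_some, ← h]
      simp [sgn]
  · rintro ⟨w, -, h⟩
    rcases w with _ | ⟨a, b⟩
    · rw [ev_vec_none] at h
      exact Or.inl h.symm
    · rw [ev_vec_some] at h
      cases b
      · right; right
        refine ⟨a, a.2, ?_⟩
        rw [← h]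
        simp [sgn]
      · right; left
        rw [← h]
        simp [sgn]

theorem tile_inj' (hA : PerfectSpanning A s) (hs : 1 ≤ s) :
    Function.Injective fun w : Option (A × Bool) => Pool.Agent.H27.GW.ev A (vec w) :=
  fun w w' h => vec_inj (ev_inj' hA (vec_abs hs w) (vec_abs hs w') h)

theorem sum_tile' (hA : PerfectSpanning A s) (hs : 1 ≤ s) {R : Type} [AddCommMonoid R]
    (f : G → R) : ∑ x ∈ tile A, f x = f 0 + ∑ a : A, (f a + f (-a)) := by
  rw [tile_eq, Finset.sum_image (fun w _ w' _ h => tile_inj' hA hs h), Fintype.sum_option,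
    ev_vec_none, Fintype.sum_prod_type]
  congr 1
  refine Finset.sum_congr rfl fun a _ => ?_
  rw [Fintype.sum_bool, ev_vec_some, ev_vec_some]
  simp [sgn]

omit [Fintype G] in
theorem tile_neg : ∀ x ∈ tile A, -x ∈ tile A := by
  intro x hx
  unfold tile at hx ⊢
  rw [mem_insert, mem_union, mem_image] at hx ⊢
  rcases hx with h | h | ⟨a, ha, h⟩
  · left
    rw [h, neg_zero]
  · right; right
    exact ⟨x, h, rfl⟩
  · right; left
    rw [← h, neg_neg]
    exact ha

/-- the values of the character at the elements of `A` -/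
def uu (A : Finset G) (χ : AddChar G ℂ) (a : A) : ℂˣ :=
  ⟨χ a, χ (-a), by
    rw [← AddChar.map_add_eq_mul, add_neg_cancel, AddChar.map_zero_eq_one], by
    rw [← AddChar.map_add_eq_mul, neg_add_cancel, AddChar.map_zero_eq_one]⟩

theorem VV_eq (hA : PerfectSpanning A s) (hs : 1 ≤ s) (χ : AddChar G ℂ) (k : ℕ) :
    (1 : ℂ) + ∑ a : A, (((uu A χ a ^ k : ℂˣ) : ℂ) + (((uu A χ a)⁻¹ ^ k : ℂˣ) : ℂ)) =
      ((v (tile A) (k • χ) : ℝ) : ℂ) := by
  have h1 : V (tile A) (k • χ) = 1 + ∑ a : A, (((uu A χ a ^ k : ℂˣ) : ℂ) +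
      (((uu A χ a)⁻¹ ^ k : ℂˣ) : ℂ)) := by
    unfold V
    rw [sum_tile' hA hs, AddChar.map_zero_eq_one]
    congr 1
  have h2 := Pool.Agent.H81.GW.V_im (tile A) tile_neg (k • χ)
  rw [← h1]
  unfold v
  apply Complex.ext
  · simp
  · rw [Complex.ofReal_im]
    exact h2

theorem B_eq (hA : PerfectSpanning A s) (hs : 1 ≤ s) (χ : AddChar G ℂ) : ∀ n : ℕ,
    ∑ c ∈ ball A n, ∏ a, ((uu A χ a ^ c a : ℂˣ) : ℂ) =
      (((BP (fun k => v (tile A) (k • χ)) n).eval (#A : ℝ) : ℝ) : ℂ) := by
  intro n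
  induction n using Nat.strong_induction_on with
  | _ n ih =>
    rcases n with _ | n
    · rw [BP_zero]
      have h1 : ball A 0 = {0} := by
        ext c
        rw [Pool.Agent.H54.GA.RD.mem_ball, mem_singleton, Nat.cast_zero]
        constructor
        · intro h
          funext i
          have h2 : |c i| ≤ ∑ j, |c j| :=
            Finset.single_le_sum (f := fun j => |c j|) (fun j _ => abs_nonneg _) (mem_univ i)
          exact abs_nonpos_iff.1 (h2.trans h)
        · rintro rfl
          simp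
      rw [h1]
      simp
    · have h1 := Pool.Agent.H27.GW.gf A ℂ (uu A χ) (n + 1)
      have h2 := BP_succ (fun k => v (tile A) (k • χ)) n (#A : ℝ)
      have hn : ((n : ℂ) + 1) ≠ 0 := by exact_mod_cast Nat.succ_ne_zero n
      refine mul_left_cancel₀ hn ?_
      rw [Nat.cast_add, Nat.cast_one] at h1
      rw [h1]
      have h3 : ((n : ℂ) + 1) *
          (((BP (fun k => v (tile A) (k • χ)) (n + 1)).eval (#A : ℝ) : ℝ) : ℂ) =
          (((((n : ℝ) + 1) * (BP (fun k => v (tile A) (k • χ)) (n + 1)).eval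
            (#A : ℝ)) : ℝ) : ℂ) := by
        push_cast
        ring
      rw [h3, h2, ← Finset.Ico_add_one_right_eq_Icc, Finset.sum_Ico_eq_sum_range,
        Complex.ofReal_sum]
      refine Finset.sum_congr rfl fun k hk => ?_
      have e2 : n + 1 - (1 + k) = n - k := by omega
      have hk' : n - k < n + 1 := by omega
      rw [VV_eq hA hs, e2, ih (n - k) hk', Fintype.card_coe]
      rw [add_comm 1 k, Complex.ofReal_mul, Complex.ofReal_sub]
      congr 2
      split_ifs <;> simp

theorem uu_prod (χ : AddChar G ℂ) (c : A → ℤ) :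
    ∏ a, ((uu A χ a ^ c a : ℂˣ) : ℂ) = χ (Pool.Agent.H54.GA.RD.ev A c) := by
  have h1 : ∀ a : A, ((uu A χ a ^ c a : ℂˣ) : ℂ) = χ (c a • (a : G)) := by
    intro a
    rw [Units.val_zpow_eq_zpow_val]
    show χ (a : G) ^ c a = _
    rw [AddChar.map_zsmul_eq_zpow]
  simp only [h1]
  rw [← Pool.Agent.H54.GA.RD.sum_prod]
  rfl

theorem t1 : T_T1 := by
  intro G _ _ A s hs hA
  refine ⟨tile_neg, ?_, card_eq hA, ?_, ?_⟩
  · have h1 := sum_tile' hA (by omega) (fun _ => (1 : ℕ))
    rw [Finset.sum_const, smul_eq_mul, mul_one, Finset.sum_const, Finset.card_univ,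
      Fintype.card_coe, smul_eq_mul] at h1
    omega
  · rw [← Nat.not_even_iff_odd]
    intro he
    have : Fact (Nat.Prime 2) := ⟨Nat.prime_two⟩
    obtain ⟨x, hx⟩ := exists_prime_addOrderOf_dvd_card (G := G) 2 he.two_dvd
    obtain ⟨c, ⟨hc1, hc2⟩, -⟩ := hA x
    have h2 : 2 • x = 0 := by
      rw [← hx]
      exact addOrderOf_nsmul_eq_zero x
    have h3 : -x = x := by
      rw [two_nsmul] at h2
      exact (eq_neg_of_add_eq_zero_left h2).symm
    have h4 : Pool.Agent.H27.GW.ev A (-c) = Pool.Agent.H27.GW.ev A c := by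
      unfold Pool.Agent.H27.GW.ev
      simp only [Pi.neg_apply, neg_smul, Finset.sum_neg_distrib]
      rw [hc2, h3]
    have h5 := ev_inj' hA (c := -c) (d := c) (by simpa using hc1) hc1 h4
    have h6 : c = 0 := by
      funext i
      have := congrFun h5 i
      simp only [Pi.neg_apply] at this
      show c i = 0
      omega
    rw [h6] at hc2
    simp only [Pi.zero_apply, zero_smul, Finset.sum_const_zero] at hc2
    rw [← hc2, addOrderOf_zero] at hx
    exact absurd hx (by norm_num)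
  · intro χ hχ
    have h1 := B_eq hA (by omega) χ s
    simp only [uu_prod] at h1
    rw [ev_bij hA (fun g => χ g)] at h1
    have h2 : ∑ g, χ g = 0 := AddChar.sum_eq_zero_of_ne_one hχ
    rw [h2] at h1
    exact_mod_cast h1.symm

end

end Pool.Agent.H42.GB
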